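import Pool.Agent.Q44.PE.Stm

/-!
# Project PE of helper44, job PE-WD: every word is a morphism
-/

set_option autoImplicit false

namespace Pool.Agent.Q192.PE.WD

open MvPolynomial Pool.Agent.Q44.SA Pool.Agent.Q44.PE

/-- the identity -/
noncomputable def idm {K : Type} [Field K] {n : ℕ} (I : Ideal (MvPolynomial (Fin n) K)) : Mor I where
  p := 1
  d := fun _ => 1
  F := fun _ a => X a
  pos := fun _ => one_pos
  hom := fun _ a => isHomogeneous_X K a
  base := fun k => Ideal.le_radical (Ideal.mem_sup_right (Ideal.subset_span ⟨0, k, rfl⟩))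
  agree := fun _ _ a b => by
    rw [mul_comm, sub_self]
    exact I.zero_mem
  into := fun _ f hf => by
    rw [show (fun a : Fin n => (X a : MvPolynomial (Fin n) K)) = X from rfl, bind₁_X_left]
    exact hf

theorem main (h : E_comp) : E_word := by
  intro K _ n I hI hH S φ ψ w
  induction w with
  | nil =>
    refine ⟨idm I, ?_⟩
    rintro F _ σ x y hx ⟨c, hc, rfl⟩
    obtain ⟨k, hk⟩ := Function.ne_iff.1 hx.1
    refine ⟨(0 : Fin 1), ⟨k, ?_⟩, c, hc, fun a => ?_⟩
    · show eval₂ σ x (X k) ≠ 0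
      rw [eval₂_X]
      exact hk
    · show (c • x) a = c * eval₂ σ x (X a)
      rw [eval₂_X]
      rfl
  | cons a w ih =>
    obtain ⟨χ, hχ⟩ := ih
    obtain ⟨χ', hχ'⟩ := h K n I hI hH χ (Lt φ ψ a)
    refine ⟨χ', ?_⟩
    rintro F _ σ x y hx ⟨z, hz, hy⟩
    exact hχ' F σ x z y hx (hχ F σ x z hx hz) hy

end Pool.Agent.Q192.PE.WD
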